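import Pool.Agent.W275.ND.Stm

/-! # Periodic points whose orbit stays in `U` are fixed -/

set_option autoImplicit false

namespace Pool.Agent.W902.ND

open MvPolynomial Pool.Agent.H936R2 Pool.Agent.W275.ND

theorem eval_smul_hom {R : Type} [CommRing R] {n d : ℕ} {F : MvPolynomial (Fin n) R}
    (hF : F.IsHomogeneous d) (c : R) (x : Fin n → R) :
    eval (c • x) F = c ^ d * eval x F := by
  rw [eval_eq', eval_eq', Finset.mul_sum]
  refine Finset.sum_congr rfl fun m hm => ?_
  have h1 : ∑ i, m i = d := by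
    have := hF (mem_support_iff.mp hm)
    rw [← this, Finsupp.weight_apply, Finsupp.sum_fintype _ _ (by simp)]
    simp
  simp only [Pi.smul_apply, smul_eq_mul, mul_pow, Finset.prod_mul_distrib, Finset.prod_pow_eq_pow_sum]
  rw [h1]
  ring

theorem dvd_eval_sub {A : Type} [CommRing A] {n : ℕ} (q : A) (w w' : Fin n → A)
    (h : ∀ i, q ∣ w i - w' i) (F : MvPolynomial (Fin n) A) : q ∣ eval w F - eval w' F := by
  rw [← Ideal.mem_span_singleton, ← Ideal.Quotient.eq, eval₂_comp, eval₂_comp]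
  congr 1
  funext i
  simp only [Function.comp_apply]
  rw [Ideal.Quotient.eq, Ideal.mem_span_singleton]
  exact h i

section DVR

variable {A : Type} [CommRing A] [IsDomain A] [IsDiscreteValuationRing A]

theorem cancel {π s x : A} (hπ : Irreducible π) {k d : ℕ} (hs : ¬ π ^ d ∣ s)
    (h : π ^ (k + d) ∣ s * x) : π ^ (k + 1) ∣ x := by
  have hs0 : s ≠ 0 := fun h0 => hs (h0 ▸ dvd_zero _)
  obtain ⟨a, s', hs', rfl⟩ := WfDvdMonoid.max_power_factor hs0 hπ
  have ha : a < d := by
    by_contra hle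
    exact hs ((pow_dvd_pow π (not_lt.mp hle)).trans (dvd_mul_right _ _))
  have h1 : π ^ (k + d - a) ∣ s' * x := by
    have h2 : π ^ a * π ^ (k + d - a) ∣ π ^ a * (s' * x) := by
      rw [← pow_add, ← mul_assoc]
      convert h using 2
      omega
    exact (mul_dvd_mul_iff_left (pow_ne_zero _ hπ.ne_zero)).mp h2
  have h3 : π ^ (k + d - a) ∣ x := hπ.prime.pow_dvd_of_dvd_mul_left _ hs' h1
  exact (pow_dvd_pow π (by omega)).trans h3

/-- the system over `A` -/
noncomputable def gg (t : A) (N d : ℕ) (R : Fin (N + 1) → MvPolynomial (Fin (N + 1)) A)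
    (i : Fin (N + 1)) : MvPolynomial (Fin (N + 1)) A :=
  tri t N d i + C (t ^ (2 * d + 2)) * R i

theorem eval_gg (t : A) (N d : ℕ) (R : Fin (N + 1) → MvPolynomial (Fin (N + 1)) A)
    (i : Fin (N + 1)) (w : Fin (N + 1) → A) :
    eval w (gg t N d R i) = t * w i ^ d +
      (if h : (i : ℕ) + 1 < N + 1 then w ⟨(i : ℕ) + 1, h⟩ ^ d else 0) +
      t ^ (2 * d + 2) * eval w (R i) := by
  unfold gg tri
  rw [map_add, map_add, map_mul, map_mul, eval_C, eval_C, map_pow, eval_X]
  congr 2
  split_ifs with h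
  · rw [map_pow, eval_X]
  · rw [map_zero]

theorem pow_sub_dvd {π a b : A} {k d : ℕ} (hπ : π ≠ 0) (hd : 2 ≤ d) (ha : π ^ d ∣ a) (hb : π ^ d ∣ b)
    (h : π ^ k ∣ a - b) : π ^ (k + d) ∣ a ^ d - b ^ d := by
  obtain ⟨x, rfl⟩ := ha
  obtain ⟨y, rfl⟩ := hb
  obtain ⟨u, hu⟩ := sub_dvd_pow_sub_pow x y d
  obtain ⟨v, hv⟩ := h
  have h1 : (π ^ d * x) ^ d - (π ^ d * y) ^ d = π ^ (d * (d - 1)) * (π ^ d * x - π ^ d * y) * u := by
    have e : d * d = d * (d - 1) + d := by
      obtain ⟨m, rfl⟩ : ∃ m, d = m + 1 := ⟨d - 1, by omega⟩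
      simp only [Nat.add_sub_cancel]
      ring
    calc (π ^ d * x) ^ d - (π ^ d * y) ^ d = π ^ (d * d) * (x ^ d - y ^ d) := by ring
      _ = π ^ (d * (d - 1) + d) * ((x - y) * u) := by rw [e, hu]
      _ = _ := by rw [pow_add]; ring
  rw [h1, hv]
  have h2 : π ^ (d * (d - 1)) * (π ^ k * v) * u = π ^ (k + d * (d - 1)) * (v * u) := by
    rw [pow_add]; ring
  rw [h2]
  have h3 : d ≤ d * (d - 1) := Nat.le_mul_of_pos_right _ (by omega)
  exact (pow_dvd_pow π (by omega)).trans (dvd_mul_right _ _)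

theorem key {π t : A} (hπ : Irreducible π) (hπt : π ∣ t) {N d : ℕ} (hN : 1 ≤ N) (hd : 2 ≤ d)
    (ht : ¬ π ^ d ∣ t) (R : Fin (N + 1) → MvPolynomial (Fin (N + 1)) A)
    {w w' v v' : Fin (N + 1) → A} (hw0 : w 0 = 1) (hw0' : w' 0 = 1)
    (hw : ∀ i, i ≠ 0 → π ^ d ∣ w i) (hw' : ∀ i, i ≠ 0 → π ^ d ∣ w' i)
    (hv : ∀ i, eval w (gg t N d R i) = eval w (gg t N d R 0) * v i)
    (hv' : ∀ i, eval w' (gg t N d R i) = eval w' (gg t N d R 0) * v' i)
    {k : ℕ} (h : ∀ i, π ^ k ∣ w i - w' i) (i : Fin (N + 1)) : π ^ (k + 1) ∣ v i - v' i := by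
  have hπ0 : π ≠ 0 := hπ.ne_zero
  have htM : ∀ m : ℕ, m ≤ 2 * d + 2 → π ^ m ∣ t ^ (2 * d + 2) := fun m hm =>
    (pow_dvd_pow π hm).trans (pow_dvd_pow_of_dvd hπt _)
  have hdiff : ∀ j, π ^ (k + d) ∣ eval w (gg t N d R j) - eval w' (gg t N d R j) := by
    intro j
    rw [eval_gg, eval_gg]
    have e1 : π ^ (k + d) ∣ t * w j ^ d - t * w' j ^ d := by
      rw [← mul_sub]
      refine Dvd.dvd.mul_left ?_ _
      rcases eq_or_ne j 0 with rfl | hj
      · rw [hw0, hw0', sub_self]; exact dvd_zero _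
      · exact pow_sub_dvd hπ0 hd (hw j hj) (hw' j hj) (h j)
    have e2 : π ^ (k + d) ∣ (if h : (j : ℕ) + 1 < N + 1 then w ⟨(j : ℕ) + 1, h⟩ ^ d else 0) -
        (if h : (j : ℕ) + 1 < N + 1 then w' ⟨(j : ℕ) + 1, h⟩ ^ d else 0) := by
      split_ifs with hj
      · have hne : (⟨(j : ℕ) + 1, hj⟩ : Fin (N + 1)) ≠ 0 := by
          intro h0
          have := congrArg Fin.val h0
          simp at this
        exact pow_sub_dvd hπ0 hd (hw _ hne) (hw' _ hne) (h _)
      · rw [sub_self]; exact dvd_zero _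
    have e3 : π ^ (k + d) ∣ t ^ (2 * d + 2) * eval w (R j) - t ^ (2 * d + 2) * eval w' (R j) := by
      rw [← mul_sub, add_comm, pow_add]
      exact mul_dvd_mul (htM d (by omega)) (dvd_eval_sub _ _ _ h _)
    have := (e1.add e2).add e3
    convert this using 1
    ring
  have hy0 : ¬ π ^ d ∣ eval w (gg t N d R 0) := by
    intro h0
    apply ht
    rw [eval_gg, hw0, one_pow, mul_one] at h0
    have h1 : π ^ d ∣ (if h : ((0 : Fin (N + 1)) : ℕ) + 1 < N + 1 then
        w ⟨((0 : Fin (N + 1)) : ℕ) + 1, h⟩ ^ d else 0) := by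
      split_ifs with hj
      · have hne : (⟨((0 : Fin (N + 1)) : ℕ) + 1, hj⟩ : Fin (N + 1)) ≠ 0 := by
          intro h0
          have := congrArg Fin.val h0
          simp at this
        exact (hw _ hne).trans (dvd_pow_self _ (by omega))
      · exact dvd_zero _
    have h2 : π ^ d ∣ t ^ (2 * d + 2) * eval w (R 0) := (htM d (by omega)).mul_right _
    have h3 := (Dvd.dvd.add h1 h2)
    rw [add_assoc] at h0
    exact (dvd_add_left h3).mp h0
  have hy0' : eval w' (gg t N d R 0) ≠ 0 := by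
    intro h0
    have h1 := hdiff 0
    have h2 : ¬ π ^ d ∣ eval w' (gg t N d R 0) := by
      intro h3
      apply hy0
      have h4 : π ^ d ∣ eval w (gg t N d R 0) - eval w' (gg t N d R 0) :=
        (pow_dvd_pow π (by omega)).trans h1
      have := h4.add h3
      rwa [sub_add_cancel] at this
    exact h2 (h0 ▸ dvd_zero _)
  refine cancel hπ (s := eval w (gg t N d R 0)) (d := d) hy0 ?_
  have e : eval w (gg t N d R 0) * (v i - v' i) =
      (eval w (gg t N d R i) - eval w' (gg t N d R i)) -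
        v' i * (eval w (gg t N d R 0) - eval w' (gg t N d R 0)) := by
    rw [hv i, hv' i]; ring
  rw [e]
  exact dvd_sub (hdiff i) ((hdiff 0).mul_left _)

end DVR

theorem main : S_con := by
  intro A _ _ _ K _ _ _ π t hπ hπt N d hN hd ht R hR z hU hper
  set P := pt (near K t (2 * d + 2) (tri t N d) R) with hP
  have hinj : Function.Injective (algebraMap A K) := IsFractionRing.injective A K
  have hhom : ∀ i, (near K t (2 * d + 2) (tri t N d) R i).IsHomogeneous d := by
    intro i
    unfold near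
    refine IsHomogeneous.map ?_ _
    refine IsHomogeneous.add ?_ ?_
    · unfold tri
      refine IsHomogeneous.add ?_ ?_
      · have := (isHomogeneous_C (Fin (N + 1)) t).mul ((isHomogeneous_X A i).pow d)
        simpa using this
      · split_ifs with h
        · have := (isHomogeneous_X A (⟨(i : ℕ) + 1, h⟩ : Fin (N + 1))).pow d
          simpa using this
        · exact isHomogeneous_zero _ _ _
    · have := (isHomogeneous_C (Fin (N + 1)) (t ^ (2 * d + 2))).mul (hR i)
      simpa using this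
  have hPs : ∀ (c : K) (x : Fin (N + 1) → K), P (c • x) = c ^ d • P x := by
    intro c x
    funext i
    rw [hP]
    simp only [pt, Pi.smul_apply, smul_eq_mul]
    exact eval_smul_hom (hhom i) c x
  have hPa : ∀ w : Fin (N + 1) → A, P (fun i => algebraMap A K (w i)) =
      fun i => algebraMap A K (eval w (gg t N d R i)) := by
    intro w
    funext i
    rw [hP]
    simp only [pt, near, gg]
    rw [eval₂_comp, eval_map]
    rfl
  choose c w hc hw0 hw hz using hU
  -- relation between consecutive vectors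
  have hstep : ∀ k, c k ^ d • (fun i => algebraMap A K (eval (w k) (gg t N d R i))) =
      c (k + 1) • fun i => algebraMap A K (w (k + 1) i) := by
    intro k
    rw [← hz (k + 1), Function.iterate_succ_apply', hz k, hPs, hPa]
  have hrel : ∀ k i, eval (w k) (gg t N d R i) = eval (w k) (gg t N d R 0) * w (k + 1) i := by
    intro k i
    have h0 := congrFun (hstep k) 0
    have hi := congrFun (hstep k) i
    simp only [Pi.smul_apply, smul_eq_mul] at h0 hi
    rw [hw0, map_one, mul_one] at h0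
    rw [← h0, mul_assoc] at hi
    have := mul_left_cancel₀ (pow_ne_zero d (hc k)) hi
    rw [← map_mul] at this
    exact hinj this
  -- consecutive vectors are close
  have hclose : ∀ m k i, π ^ m ∣ w (k + m) i - w (k + m + 1) i := by
    intro m
    induction m with
    | zero => intro k i; rw [pow_zero]; exact one_dvd _
    | succ m ih =>
      intro k i
      exact key hπ hπt hN hd ht R (hw0 (k + m)) (hw0 (k + m + 1)) (hw (k + m)) (hw (k + m + 1))
        (hrel (k + m)) (hrel (k + m + 1)) (ih k) i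
  -- periodicity
  obtain ⟨l, hl, c', hc', hcl⟩ := hper
  have hPk : ∀ k, ∃ e : K, e ≠ 0 ∧ P^[k] (c' • z) = e • P^[k] z := by
    intro k
    induction k with
    | zero => exact ⟨c', hc', rfl⟩
    | succ k ih =>
      obtain ⟨e, he, h⟩ := ih
      refine ⟨e ^ d, pow_ne_zero _ he, ?_⟩
      rw [Function.iterate_succ_apply', h, hPs, Function.iterate_succ_apply']
  have hwl : ∀ k, w (k + l) = w k := by
    intro k
    obtain ⟨e, he, h⟩ := hPk k
    rw [← hcl, ← Function.iterate_add_apply, hz (k + l), hz k] at h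
    have h0 := congrFun h 0
    simp only [Pi.smul_apply, smul_eq_mul] at h0
    rw [hw0, hw0, map_one, mul_one, mul_one] at h0
    funext i
    have hi := congrFun h i
    simp only [Pi.smul_apply, smul_eq_mul] at hi
    rw [h0, mul_assoc] at hi
    exact hinj (mul_left_cancel₀ (hc k) (mul_left_cancel₀ he hi))
  have hwml : ∀ m k, w (k + m * l) = w k := by
    intro m
    induction m with
    | zero => intro k; simp
    | succ m ih =>
      intro k
      have : k + (m + 1) * l = (k + m * l) + l := by ring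
      rw [this, hwl, ih]
  have hw01 : w 0 = w 1 := by
    funext i
    by_contra hne
    have hne' : w 0 i - w 1 i ≠ 0 := sub_ne_zero.mpr hne
    obtain ⟨n, a, ha, hna⟩ := WfDvdMonoid.max_power_factor hne' hπ
    have h1 := hclose ((n + 1) * l) 0 i
    have e1 : w (0 + (n + 1) * l) = w 0 := hwml (n + 1) 0
    have e2 : w (0 + (n + 1) * l + 1) = w 1 := by
      have : 0 + (n + 1) * l + 1 = 1 + (n + 1) * l := by ring
      rw [this, hwml]
    rw [e1, e2] at h1
    have h2 : π ^ (n + 1) ∣ w 0 i - w 1 i := (pow_dvd_pow π (Nat.le_mul_of_pos_right _ hl)).trans h1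
    rw [hna, pow_succ] at h2
    exact ha ((mul_dvd_mul_iff_left (pow_ne_zero n hπ.ne_zero)).mp h2)
  refine ⟨c 1 * (c 0)⁻¹, ?_⟩
  have e0 : z = c 0 • fun i => algebraMap A K (w 0 i) := hz 0
  have e1 : P z = c 1 • fun i => algebraMap A K (w 1 i) := hz 1
  rw [e1, ← hw01]
  conv_rhs => rw [e0]
  rw [smul_smul, mul_assoc, inv_mul_cancel₀ (hc 0), mul_one]

end Pool.Agent.W902.ND
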